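import Mathlib
import Pool.Agent.H938R2.Elim3

set_option autoImplicit false

/-!
An upper bound for the dimension of linear systems of hypersurfaces of degree `d` with arbitrary
assigned multiplicities at general points of projective space of any dimension, and a numerical
criterion for general fat points to impose maximal conditions.  The bound comes from points on a
complete intersection curve of arbitrary type `(k 0, ..., k (r - 1))`.
-/

namespace Pool.Agent.Results.MP_1dafdd_ag.CompleteIntersectionCurve

open MvPolynomial Pool.Agent.H938R2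

/-- The number of pairs `(ε, q)`, where `ε` is a family of natural numbers with `ε j < k j` for
every `j` and `q` is a natural number, with `∑ j, ε j + q ≤ D`. -/
noncomputable def cap {r : ℕ} (k : Fin r → ℕ) (D : ℤ) : ℕ :=
  Nat.card {x : (Fin r → ℕ) × ℕ // (∀ j, x.1 j < k j) ∧ ((∑ j, x.1 j + x.2 : ℕ) : ℤ) ≤ D}

/-- The fat point scheme with multiplicities `m i` at the points `p i` of projective space of
dimension `r` imposes maximal conditions in degree `d`. The subtraction is truncated. -/
def MaximalConditions (r d : ℕ) {n : ℕ} (m : Fin n → ℕ) (p : Fin n → Fin (r + 1) → ℂ) : Prop :=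
  Module.finrank ℂ (forms (r + 1) d m p) =
    (d + r).choose r - ∑ i, (m i + r - 1).choose r

theorem result (r n d : ℕ) (k : Fin r → ℕ) (hk : ∀ j, 1 ≤ k j) (m : Fin n → ℕ) :
    ForGeneral (r + 2) n (fun p => Module.finrank ℂ (forms (r + 2) d m p) ≤
      ∑ l : Fin r → Fin (d + 1), (cap k ((d : ℤ) - ∑ j, (k j : ℤ) * (l j : ℕ)) -
        ∑ i, (m i - ∑ j, (l j : ℕ)))) ∧
    ((∀ l : Fin r → ℕ, cap k ((d : ℤ) - ∑ j, (k j : ℤ) * l j) ≤ ∑ i, (m i - ∑ j, l j)) ∨
      (∀ l : Fin r → ℕ, ∑ i, (m i - ∑ j, l j) ≤ cap k ((d : ℤ) - ∑ j, (k j : ℤ) * l j)) →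
      ForGeneral (r + 2) n (fun p => MaximalConditions (r + 1) d m p)) := by
  obtain ⟨h1, h2, h3⟩ := Elim.main r n d k hk m
  refine ⟨h1, ?_⟩
  have h9 : ∀ i, m i + (r + 1) - 1 = m i + r := fun i => by omega
  rintro (h | h)
  · refine ((h2 h).and (forGeneral_ne_zero (by omega))).mono fun p hp => ?_
    show Module.finrank ℂ (forms (r + 2) d m p) =
      (d + (r + 1)).choose (r + 1) - ∑ i, (m i + (r + 1) - 1).choose (r + 1)
    have h8 : (d + (r + 1)).choose (r + 1) ≤
        Module.finrank ℂ (forms (r + 2) d m p) + ∑ i, (m i + (r + 1) - 1).choose (r + 1) :=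
      finrank_forms_ge (r + 1) d m p hp.2
    have h10 := hp.1
    rw [h10, finrank_bot] at h8 ⊢
    omega
  · refine (h3 h).mono fun p hp => ?_
    show Module.finrank ℂ (forms (r + 2) d m p) =
      (d + (r + 1)).choose (r + 1) - ∑ i, (m i + (r + 1) - 1).choose (r + 1)
    simp only [h9]
    omega

end Pool.Agent.Results.MP_1dafdd_ag.CompleteIntersectionCurve
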