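import Mathlib
import Pool.Agent.H932R7.Final2

set_option autoImplicit false

/-!
# Arbitrary bounded multiplicities in degrees of order `m ^ (3 / 2)`

General points of the complex projective plane with arbitrary multiplicities `w i ≤ m`. Let
`1 ≤ k ≤ m` be such that for every point of multiplicity `w i > k` the points of smaller
multiplicities (`≥ 2`, or `≥ 1` if `k = 1`) satisfy `∑ w j (w j + 1) ≥ 2 w i (w i + 1) (w i + 2)`
(no condition if `k = m`). Let `A = ∑ (w i + 1).choose 2`. Then in every degree `d` with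
`m (m + 1) (m + 6 √m + 10) ≤ max ((d + 1) (d + 2), A)` the linear system has the expected dimension
if `|(d + 2).choose 2 - A| ≥ 2 (k + 1).choose 3`, where simple points need not be counted in `A` on
the side of independence, and also, without this last condition, if no multiplicity lies strictly
between `1` and `k`.
-/

namespace Pool.Agent.Results.MP_1dafdd_ag.PlaneBoundedMultiplicities

theorem result (n m k : ℕ) (hk : 0 < k) (hkm : k ≤ m) (w : Fin n → ℕ) (hw : ∀ i, w i ≤ m)
    (hfreq : ∀ i, k < w i → 2 * (w i * (w i + 1) * (w i + 2)) ≤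
      ∑ j ∈ Finset.univ.filter (fun j => min 2 k ≤ w j ∧ w j < w i), w j * (w j + 1)) :
    ∃ F : MvPolynomial (Fin n × Fin 2) ℂ, F ≠ 0 ∧
      ∀ P : Fin n → Fin 2 → ℂ,
        MvPolynomial.eval (fun ij : Fin n × Fin 2 => P ij.1 ij.2) F ≠ 0 →
        ∀ d : ℕ,
          (m : ℝ) * (m + 1) * (m + 6 * Real.sqrt m + 10) ≤
              ((max ((d + 1) * (d + 2)) (∑ i, (w i + 1).choose 2) : ℕ) : ℝ) →
          ((d + 2).choose 2 + 2 * (k + 1).choose 3 ≤ ∑ i, (w i + 1).choose 2 ∨
            ∑ i ∈ Finset.univ.filter (fun i => w i ≠ 1), (w i + 1).choose 2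
              + 2 * (k + 1).choose 3 ≤ (d + 2).choose 2 ∨
            ∀ i, w i ≤ 1 ∨ k ≤ w i) →
          Module.finrank ℂ
            ↥(MvPolynomial.homogeneousSubmodule (Fin 3) ℂ d ⊓
              Submodule.restrictScalars ℂ
                (⨅ i : Fin n,
                  (Ideal.span
                    ({MvPolynomial.X 0 - MvPolynomial.C (P i 0) * MvPolynomial.X 2,
                      MvPolynomial.X 1 - MvPolynomial.C (P i 1) * MvPolynomial.X 2} :
                      Set (MvPolynomial (Fin 3) ℂ))) ^ (w i)))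
          = Nat.choose (d + 2) 2 - ∑ i, Nat.choose (w i + 1) 2 := by
  obtain ⟨F, hF, hF'⟩ := H932R7.bounded2 ℂ hk hkm hw hfreq
  refine ⟨F.map (algebraMap ℚ ℂ), H932R3.map_ne_zero_of hF, fun P hP d h1 h2 => ?_⟩
  rw [MvPolynomial.eval_map] at hP
  exact hF' P hP d ⟨h1, h2⟩

end Pool.Agent.Results.MP_1dafdd_ag.PlaneBoundedMultiplicities
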