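import Mathlib
import Pool.Agent.H932R3.NearFinal

set_option autoImplicit false

/-!
# Fat points of nearly equal multiplicities in the plane impose maximal conditions

For `k > 9` general points of the complex projective plane with multiplicities
`w i ∈ {m, m + 1}`, where `m + 1 ≤ k - 6 √k + 11` (or the slightly weaker numerical condition
below holds), the fat point scheme imposes maximal conditions in every degree `d`.
-/

namespace Pool.Agent.Results.MP_1dafdd_ag.PlaneNearUniform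

theorem result (k : ℕ) (hk : 9 < k) (m : ℕ) (hm : 0 < m) (w : Fin k → ℕ)
    (hw : ∀ i, w i = m ∨ w i = m + 1)
    (h : ((m + 1 : ℕ) : ℝ) ≤ k - 6 * Real.sqrt k + 11 ∨
      ∃ δ κ : ℕ, 2 ≤ δ ∧ k = δ ^ 2 + 2 * κ ∧
        (κ = 0 ∨ ∑ i, w i * (w i + 1) < δ ^ 2 * (δ ^ 2 + 3) * (δ ^ 2 + 4))) :
    ∃ F : MvPolynomial (Fin k × Fin 2) ℂ, F ≠ 0 ∧
      ∀ P : Fin k → Fin 2 → ℂ,
        MvPolynomial.eval (fun ij : Fin k × Fin 2 => P ij.1 ij.2) F ≠ 0 →
        ∀ d : ℕ,
          (Module.finrank ℂ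
            ↥(MvPolynomial.homogeneousSubmodule (Fin 3) ℂ d ⊓
              Submodule.restrictScalars ℂ
                (⨅ i : Fin k,
                  (Ideal.span
                    ({MvPolynomial.X 0 - MvPolynomial.C (P i 0) * MvPolynomial.X 2,
                      MvPolynomial.X 1 - MvPolynomial.C (P i 1) * MvPolynomial.X 2} :
                      Set (MvPolynomial (Fin 3) ℂ))) ^ (w i))) : ℤ)
          = max 0 ((Nat.choose (d + 2) 2 : ℤ) - ∑ i, (Nat.choose (w i + 1) 2 : ℤ)) := by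
  obtain ⟨F, hF, hF'⟩ := H932R3.near_points (L := ℂ) (by omega) hm hw (H932R3.near_cond hk hw h)
  refine ⟨F.map (algebraMap ℚ ℂ), fun h0 => hF (MvPolynomial.map_injective (algebraMap ℚ ℂ)
    (algebraMap ℚ ℂ).injective (by rw [h0, map_zero])), fun P hP d => ?_⟩
  rw [MvPolynomial.eval_map] at hP
  have h1 := hF' P hP d
  rw [h1]
  have h2 : ∑ i, (Nat.choose (w i + 1) 2 : ℤ) = ((∑ i, Nat.choose (w i + 1) 2 : ℕ) : ℤ) := by
    push_cast
    rfl
  rw [h2]
  omega

end Pool.Agent.Results.MP_1dafdd_ag.PlaneNearUniform
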